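import Pool.Agent.B4.Main

/-!
# Closed braids on four strands

Let a knot `K` be the closure of a word `w` in the braid generators and their inverses on four
strands, with exponent sum `e`.  If `|e| ≥ 7` then the value of the normalized bracket `f` of `K` at
`A = exp (-π i / (3 e))` is different from `1`; in particular `f ≠ 1`.
-/

open Pool.Agent.Helper1.PK

namespace Pool.Agent.Results.MP_42db45_gt.FourBraids

theorem result {N : ℕ} [NeZero N] (w : ZMod N → Letter 3) (hw : ∀ t, (w t).kind ≠ Kind.turn)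
    (o : Pt N 3 → ℤˣ) (hK : IsKnot w) (ho : IsOrientation w o)
    (e : ℤ) (he : e = ∑ t, (w t).kind.sgn) (h7 : 7 ≤ |e|)
    (A : ℂˣ) (hA : (A : ℂ) = Complex.exp (-(Real.pi * Complex.I) / (3 * e))) :
    LaurentPolynomial.eval₂ (Int.castRingHom ℂ) A (normalized w o) ≠ 1 := by
  have hN := Pool.Agent.B4.odd_letters hw hK
  obtain ⟨k, hk⟩ := Pool.Agent.B4.expsum_parity hw
  have hodd : Odd (Pool.Agent.B4.expsum w) := by
    obtain ⟨j, hj⟩ := hN
    exact ⟨j + k, by rw [hk, hj]; push_cast; ring⟩
  have he' : e = Pool.Agent.B4.expsum w := he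
  have h1 := Pool.Agent.B4.eval_ne_one hw hodd (by rw [← he']; exact h7)
    (Pool.Agent.B4.writhe_knot hw hK ho)
  have h2 : A = Pool.Agent.B4.pt (Pool.Agent.B4.expsum w) := by
    apply Units.ext
    rw [hA, he']
    rfl
  rw [h2]
  exact h1

end Pool.Agent.Results.MP_42db45_gt.FourBraids
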