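import Pool.Agent.TWB.Stm
import Pool.Agent.TWB.All

/-!
# Full twists times alternating braids

The Jones polynomial of the closure of a nonzero power of the full twist times an alternating braid
is never a unit, for every number `n + 1 ≥ 3` of strands.
-/

open Pool.Agent.Helper1.PK Pool.Agent.TWS

namespace Pool.Agent.Results.MP_42db45_gt.TwistedBraids

/-- Let `w` be the closure of the word which consists of `k ≥ 1` full twists of the kind `κ` (all
right-handed or all left-handed) on `n + 1 ≥ 3` strands and of an alternating braid word `L` in
which every generator occurs. The normalized bracket of `w` is not a unit of `ℤ[A, A⁻¹]`; in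
particular it is different from `1`. -/
theorem result {N n : ℕ} [NeZero N] (hn : 2 ≤ n) (w : ZMod N → Letter n) (o : Pt N n → ℤˣ)
    (ho : IsOrientation w o) (k : ℕ) (hk : 1 ≤ k) (κ : Kind) (hκ : κ ≠ .turn)
    (L : List (Letter n)) (hL : Alternating L) (hfull : ∀ i : Fin n, ∃ l ∈ L, l.place = i)
    (hw : (List.range N).map (fun t : ℕ => w t) =
      (List.replicate k (fullTwist n κ)).flatten ++ L) :
    ¬ IsUnit (normalized w o) :=
  Pool.Agent.TWB.main N n k w κ L o hn hk hκ hL hfull hw

end Pool.Agent.Results.MP_42db45_gt.TwistedBraids
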